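import Pool.Agent.BEK.Stmts
import Pool.Agent.Helper70_BE01.Scl

/-!
# BEK, row ORN: the order is bounded
-/

set_option autoImplicit false

namespace Pool.Agent.BEK.H8

open Set Filter Topology MeasureTheory
open scoped InnerProductSpace ENNReal
open Pool.Agent.BE01 Pool.Agent.BED Pool.Agent.BEJ Pool.Agent.BEK

noncomputable section

theorem orn_open (a b : ℝ) : IsOpen (An a b) := by
  have h1 : An a b = (fun y : En 2 => ‖y‖) ⁻¹' Ioo a b := rfl
  rw [h1]
  exact isOpen_Ioo.preimage continuous_norm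

theorem orn_fin (a b : ℝ) : volume (An a b) < ⊤ := by
  refine lt_of_le_of_lt (measure_mono ?_)
    (Metric.isBounded_ball (x := (0 : En 2)) (r := b)).measure_lt_top
  rintro y ⟨_, hy⟩
  exact mem_ball_zero_iff.2 hy

theorem orn_pos (a b : ℝ) (ha : 0 < a) (hab : a < b) : 0 < volume (An a b) := by
  refine (orn_open a b).measure_pos volume ?_
  obtain ⟨e, he⟩ := exists_norm_eq (En 2) (show (0 : ℝ) ≤ (a + b) / 2 by linarith)
  refine ⟨e, ?_, ?_⟩
  · show a < ‖e‖
    rw [he]; linarith
  · show ‖e‖ < b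
    rw [he]; linarith

/-- radial integral over the annulus -/
theorem orn_int (a b : ℝ) (ha : 0 < a) (hab : a < b) (h : ℝ → ℝ) :
    ∫ y, h ‖y‖ ∂(mu (An a b)) = 2 * Real.pi * ∫ r in a..b, r * h r := by
  have h1 : ∫ y, h ‖y‖ ∂(mu (An a b)) = ∫ y : En 2, (Ioo a b).indicator h ‖y‖ := by
    unfold mu
    rw [← integral_indicator (orn_open a b).measurableSet]
    refine integral_congr_ae (Eventually.of_forall fun y => ?_)
    by_cases hy : y ∈ An a b
    · simp only [indicator_of_mem hy, indicator_of_mem (show ‖y‖ ∈ Ioo a b from hy)]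
    · simp only [indicator_of_notMem hy, indicator_of_notMem (show ‖y‖ ∉ Ioo a b from hy)]
  rw [h1, integral_fun_norm_addHaar (volume : Measure (En 2)) ((Ioo a b).indicator h)]
  have h2 : Module.finrank ℝ (En 2) = 2 := finrank_euclideanSpace_fin
  rw [h2, Measure.real, EuclideanSpace.volume_ball_fin_two]
  have h3 : ∫ y in Ioi (0 : ℝ), y ^ (2 - 1) • (Ioo a b).indicator h y = ∫ r in a..b, r * h r := by
    rw [intervalIntegral.integral_of_le hab.le, integral_Ioc_eq_integral_Ioo,
      ← integral_indicator measurableSet_Ioi, ← integral_indicator measurableSet_Ioo]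
    congr 1
    funext y
    by_cases hy : y ∈ Ioo a b
    · have hy0 : y ∈ Ioi (0 : ℝ) := ha.trans hy.1
      rw [indicator_of_mem hy0, indicator_of_mem hy, indicator_of_mem hy, smul_eq_mul]
      norm_num
    · rw [indicator_of_notMem hy]
      by_cases hy0 : y ∈ Ioi (0 : ℝ)
      · rw [indicator_of_mem hy0, indicator_of_notMem hy, smul_zero]
      · rw [indicator_of_notMem hy0]
  rw [h3]
  simp only [ENNReal.ofReal_one, one_pow, one_mul, smul_eq_mul, nsmul_eq_mul]
  rw [ENNReal.toReal_ofReal Real.pi_pos.le]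
  push_cast
  ring

/-- the integral of `sin²` -/
theorem orn_sin (a b s : ℝ) (hs : 0 < s) :
    ∫ r in a..b, Real.sin (s * (r - a)) ^ 2 = (b - a) / 2 - Real.sin (2 * (s * (b - a))) / (4 * s) := by
  have h1 : ∀ r ∈ uIcc a b, HasDerivAt
      (fun r => r / 2 - Real.sin (2 * (s * (r - a))) / (4 * s)) (Real.sin (s * (r - a)) ^ 2) r := by
    intro r _
    have e1 : HasDerivAt (fun r : ℝ => 2 * (s * (r - a))) (2 * (s * 1)) r :=
      (((hasDerivAt_id r).sub_const a).const_mul s).const_mul 2
    have e2 := ((hasDerivAt_id r).div_const 2).sub ((e1.sin).div_const (4 * s))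
    have e3 : Real.sin (s * (r - a)) ^ 2 =
        1 / 2 - Real.cos (2 * (s * (r - a))) * (2 * (s * 1)) / (4 * s) := by
      rw [Real.cos_two_mul']
      have h := Real.sin_sq_add_cos_sq (s * (r - a))
      field_simp
      nlinarith [h]
    rw [e3]
    exact e2
  rw [intervalIntegral.integral_eq_sub_of_hasDerivAt h1]
  · simp only [sub_self, mul_zero, Real.sin_zero, zero_div, sub_zero]
    ring
  · exact Continuous.intervalIntegrable (by fun_prop) a b

/-- the tangent line inequality -/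
theorem orn_tan (p : ℕ) (m t : ℝ) (hm : 0 < m) (ht : 0 ≤ t) :
    (p + 1) * m ^ p * t - p * m ^ (p + 1) ≤ t ^ (p + 1) := by
  have h1 : -2 ≤ t / m - 1 := by
    have : 0 ≤ t / m := div_nonneg ht hm.le
    linarith
  have h2 := one_add_mul_le_pow h1 (p + 1)
  have h3 : (1 + (t / m - 1)) ^ (p + 1) = t ^ (p + 1) / m ^ (p + 1) := by
    rw [← div_pow]
    ring
  rw [h3, le_div_iff₀ (pow_pos hm _)] at h2
  push_cast at h2
  have h4 : (1 + ((p : ℝ) + 1) * (t / m - 1)) * m ^ (p + 1) =
      (p + 1) * m ^ p * t - p * m ^ (p + 1) := by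
    field_simp
    ring
  rw [h4] at h2
  exact h2

/-- pointwise: from WPR -/
theorem orn_pt (C X a b : ℝ) (ha : 0 < a) (hab : a < b) (hC : 0 < C)
    (hw : ∀ x y : ℝ, X ≤ x → X ≤ y →
      ‖((4 * Real.sqrt (x * y) / Real.pi : ℝ) : ℂ) * ((starRingEnd ℂ) (HH x) * HH y) -
        Complex.exp ((y - x : ℝ) * Complex.I) *
          (1 + Complex.I * (1 / (8 * x) - 1 / (8 * y) : ℝ))‖ ≤ C / x ^ 2 + C / y ^ 2)
    (s r : ℝ) (hs1 : 1 ≤ s) (hsX : X ≤ s * a) (hr1 : a < r) (hr2 : r < b) :
    |4 * (s * Real.sqrt (a * r)) / Real.pi * ((starRingEnd ℂ) (HH (s * a)) * HH (s * r)).im -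
      Real.sin (s * (r - a))| ≤ (1 / (8 * a) + 2 * C / a ^ 2) / s := by
  have hs0 : 0 < s := by linarith
  have hr0 : 0 < r := ha.trans hr1
  have hX2 : X ≤ s * r := hsX.trans (mul_le_mul_of_nonneg_left hr1.le hs0.le)
  have h1 := hw (s * a) (s * r) hsX hX2
  have hsq : Real.sqrt (s * a * (s * r)) = s * Real.sqrt (a * r) := by
    rw [show s * a * (s * r) = s ^ 2 * (a * r) by ring, Real.sqrt_mul (by positivity),
      Real.sqrt_sq hs0.le]
  rw [hsq] at h1
  set P : ℂ := (starRingEnd ℂ) (HH (s * a)) * HH (s * r) with hP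
  set δ : ℝ := 1 / (8 * (s * a)) - 1 / (8 * (s * r)) with hδ
  have h2 := (Complex.abs_im_le_norm _).trans h1
  have h3 : ((((4 * (s * Real.sqrt (a * r)) / Real.pi : ℝ) : ℂ) * P -
      Complex.exp ((s * r - s * a : ℝ) * Complex.I) * (1 + Complex.I * (δ : ℝ)))).im =
      4 * (s * Real.sqrt (a * r)) / Real.pi * P.im - (Real.sin (s * (r - a)) +
        δ * Real.cos (s * (r - a))) := by
    clear_value P
    rw [Complex.sub_im, Complex.im_ofReal_mul, Complex.mul_im (Complex.exp _)]
    rw [show s * r - s * a = s * (r - a) by ring]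
    rw [Complex.exp_ofReal_mul_I_re, Complex.exp_ofReal_mul_I_im]
    simp
    ring
  rw [h3] at h2
  have hd0 : 0 ≤ δ := by
    rw [hδ, sub_nonneg]
    apply one_div_le_one_div_of_le (by positivity)
    have : s * a ≤ s * r := mul_le_mul_of_nonneg_left hr1.le hs0.le
    linarith
  have hd1 : δ ≤ 1 / (8 * a) / s := by
    have e1 : 1 / (8 * (s * a)) = 1 / (8 * a) / s := by field_simp
    have e2 : 0 ≤ 1 / (8 * (s * r)) := by positivity
    rw [hδ, e1]
    linarith
  have h4 : C / (s * a) ^ 2 + C / (s * r) ^ 2 ≤ 2 * C / a ^ 2 / s := by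
    have e1 : C / (s * a) ^ 2 ≤ C / a ^ 2 / s := by
      rw [div_div]
      apply div_le_div_of_nonneg_left hC.le (by positivity)
      nlinarith [mul_pos hs0 (pow_pos ha 2), mul_nonneg (mul_nonneg hs0.le (sub_nonneg.2 hs1))
        (sq_nonneg a)]
    have e2 : C / (s * r) ^ 2 ≤ C / (s * a) ^ 2 := by
      apply div_le_div_of_nonneg_left hC.le (by positivity)
      exact pow_le_pow_left₀ (by positivity) (mul_le_mul_of_nonneg_left hr1.le hs0.le) 2
    have e3 : 2 * C / a ^ 2 / s = C / a ^ 2 / s + C / a ^ 2 / s := by ring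
    rw [e3]
    linarith
  have h5 : |δ * Real.cos (s * (r - a))| ≤ 1 / (8 * a) / s := by
    rw [abs_mul, abs_of_nonneg hd0]
    calc δ * |Real.cos (s * (r - a))| ≤ δ * 1 :=
          mul_le_mul_of_nonneg_left (Real.abs_cos_le_one _) hd0
      _ ≤ 1 / (8 * a) / s := by rw [mul_one]; exact hd1
  have h6 := h2.trans h4
  rw [abs_le] at h5 h6 ⊢
  rw [add_div]
  constructor <;> linarith [h5.1, h5.2, h6.1, h6.2]

/-- the lower bound of the square -/
theorem orn_sq (x y e : ℝ) (hy : |y| ≤ 1) (h : |x - y| ≤ e) : y ^ 2 - 2 * e ≤ x ^ 2 := by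
  have he : 0 ≤ e := (abs_nonneg _).trans h
  have h1 : x ^ 2 = y ^ 2 + 2 * (y * (x - y)) + (x - y) ^ 2 := by ring
  have h2 : |y * (x - y)| ≤ 1 * e := by
    rw [abs_mul]
    exact mul_le_mul hy h (abs_nonneg _) zero_le_one
  have h3 := (abs_le.1 h2).1
  nlinarith [sq_nonneg (x - y)]

/-- row ORN -/
theorem orn (wpr : WprStmt) : OrnStmt := by
  obtain ⟨C, X, hC, hX, hw, -⟩ := wpr
  intro a b p ha hab hp
  have hpi := Real.pi_pos
  set K : ℝ := 1 / (8 * a) + 2 * C / a ^ 2 with hK
  have hK0 : 0 < K := by positivity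
  set L : ℝ := b - a with hL
  have hL0 : 0 < L := by rw [hL]; linarith
  set B : ℝ := (1 + K) * Real.pi / (4 * a) with hB
  have hB0 : 0 < B := by positivity
  set V : ℝ := (volume (An a b)).toReal with hV
  have hV0 : 0 < V := ENNReal.toReal_pos (orn_pos a b ha hab).ne' (orn_fin a b).ne
  set c' : ℝ := 2 * Real.pi * (Real.pi ^ 2 / (16 * a) * (L / 4)) with hc'
  have hc0 : 0 < c' := by positivity
  have hcp := Pool.Agent.Helper70BE01Scl.cp_pos p
  have hp0 : (0 : ℝ) < p := by exact_mod_cast hp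
  have hD : 0 < p * cp p * (c' / V) ^ p := by positivity
  obtain ⟨N, hN⟩ := exists_nat_gt ((2 * p + 1) * B ^ (2 * p) / (p * cp p * (c' / V) ^ p))
  refine ⟨N, max (max 1 (X / a)) ((1 + 8 * K * L) / L), B,
    (le_max_left _ _).trans (le_max_left _ _), ?_⟩
  intro s φ hs hφ
  have hs1 : 1 ≤ s := ((le_max_left _ _).trans (le_max_left _ _)).trans hs
  have hs0 : 0 < s := by linarith
  have hsX : X ≤ s * a := by
    have h := ((le_max_right (1 : ℝ) (X / a)).trans (le_max_left _ _)).trans hs
    rwa [div_le_iff₀ ha] at h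
  have hs3 : 1 + 8 * K * L ≤ s * L := by
    have h := (le_max_right (max 1 (X / a)) ((1 + 8 * K * L) / L)).trans hs
    rwa [div_le_iff₀ hL0] at h
  have hfm : IsFiniteMeasure (mu (An a b)) := by
    unfold mu
    exact ⟨by rw [Measure.restrict_apply_univ]; exact orn_fin a b⟩
  have hmem : ∀ᵐ y ∂(mu (An a b)), y ∈ An a b := by
    unfold mu
    exact ae_restrict_mem (orn_open a b).measurableSet
  -- the pointwise bounds
  have hpt : ∀ᵐ y ∂(mu (An a b)), |φ y| ≤ B / s ∧
      Real.pi ^ 2 / (16 * a * s ^ 2) * ((Real.sin (s * (‖y‖ - a)) ^ 2 - 2 * (K / s)) / ‖y‖) ≤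
        φ y ^ 2 := by
    filter_upwards [hφ, hmem] with y hy hym
    have hr1 : a < ‖y‖ := hym.1
    have hr2 : ‖y‖ < b := hym.2
    have hr0 : 0 < ‖y‖ := ha.trans hr1
    have h1 := orn_pt C X a b ha hab hC hw s ‖y‖ hs1 hsX hr1 hr2
    rw [← hK, ← hy] at h1
    have hsq : 0 < Real.sqrt (a * ‖y‖) := Real.sqrt_pos.2 (by positivity)
    have hsq1 : a ≤ Real.sqrt (a * ‖y‖) := by
      apply Real.le_sqrt_of_sq_le
      nlinarith
    have hsq2 : Real.sqrt (a * ‖y‖) ^ 2 = a * ‖y‖ := Real.sq_sqrt (by positivity)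
    set Q : ℝ := Real.sqrt (a * ‖y‖) with hQ
    constructor
    · have h2 : |4 * (s * Q) / Real.pi * φ y| ≤ 1 + K := by
        have e1 := abs_sub_abs_le_abs_sub (4 * (s * Q) / Real.pi * φ y)
          (Real.sin (s * (‖y‖ - a)))
        have e2 := Real.abs_sin_le_one (s * (‖y‖ - a))
        have e3 : K / s ≤ K := div_le_self hK0.le hs1
        linarith
      rw [abs_mul, abs_of_pos (by positivity)] at h2
      have h3 : 4 * (s * a) / Real.pi * |φ y| ≤ 1 + K := by
        refine le_trans ?_ h2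
        apply mul_le_mul_of_nonneg_right _ (abs_nonneg _)
        apply div_le_div_of_nonneg_right _ hpi.le
        nlinarith
      rw [hB, div_div, le_div_iff₀ (by positivity)]
      rw [div_mul_eq_mul_div, div_le_iff₀ hpi] at h3
      nlinarith
    · have h2 := orn_sq _ _ _ (Real.abs_sin_le_one (s * (‖y‖ - a))) h1
      have h3 : (4 * (s * Q) / Real.pi * φ y) ^ 2 =
          (16 * a * s ^ 2 / Real.pi ^ 2) * ‖y‖ * φ y ^ 2 := by
        rw [mul_pow, div_pow, mul_pow, mul_pow, hsq2]
        ring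
      rw [h3] at h2
      rw [mul_div_assoc', div_le_iff₀ hr0, div_mul_eq_mul_div, div_le_iff₀ (by positivity)]
      have h4 : (16 * a * s ^ 2 / Real.pi ^ 2) * ‖y‖ * φ y ^ 2 * Real.pi ^ 2 =
          φ y ^ 2 * ‖y‖ * (16 * a * s ^ 2) := by
        field_simp
      have h5 := mul_le_mul_of_nonneg_right h2 (sq_nonneg Real.pi)
      rw [h4] at h5
      linarith
  have hbd : ∀ᵐ y ∂(mu (An a b)), |φ y| ≤ B / s := hpt.mono fun y h => h.1
  refine ⟨hbd, ?_⟩
  -- integrability
  have hI2 : Integrable (fun y => φ y ^ 2) (mu (An a b)) := (Lp.memLp φ).integrable_sq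
  have hIp : Integrable (fun y => φ y ^ (2 * p + 2)) (mu (An a b)) := by
    refine Integrable.mono' (integrable_const ((B / s) ^ (2 * p + 2)))
      ((Lp.aestronglyMeasurable φ).pow _) ?_
    filter_upwards [hbd] with y hy
    rw [norm_pow, Real.norm_eq_abs]
    exact pow_le_pow_left₀ (abs_nonneg _) hy _
  -- the lower bound of the integral
  set I : ℝ := ∫ y, φ y ^ 2 ∂(mu (An a b)) with hI
  have hlow : c' / s ^ 2 ≤ I := by
    set h : ℝ → ℝ := fun r => Real.pi ^ 2 / (16 * a * s ^ 2) *
      ((Real.sin (s * (r - a)) ^ 2 - 2 * (K / s)) / r) with hh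
    have e1 : ∫ y, h ‖y‖ ∂(mu (An a b)) ≤ I := by
      refine integral_mono_ae ?_ hI2 (hpt.mono fun y hy => hy.2)
      refine Integrable.mono' (integrable_const (Real.pi ^ 2 / (16 * a * s ^ 2) *
        ((1 + 2 * (K / s)) / a))) ?_ ?_
      · have hm : Measurable h := by
          rw [hh]
          fun_prop
        exact (hm.comp measurable_norm).aestronglyMeasurable
      · filter_upwards [hmem] with y hy
        have hr0 : 0 < ‖y‖ := ha.trans hy.1
        rw [hh, Real.norm_eq_abs]
        simp only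
        rw [abs_mul, abs_of_nonneg (by positivity), abs_div, abs_of_pos hr0]
        apply mul_le_mul_of_nonneg_left _ (by positivity)
        apply div_le_div₀ (by positivity) _ ha hy.1.le
        have hks : 0 ≤ K / s := by positivity
        have hsn := Real.sin_sq_le_one (s * (‖y‖ - a))
        have hsn2 := sq_nonneg (Real.sin (s * (‖y‖ - a)))
        rw [abs_le]
        constructor <;> linarith
    refine le_trans ?_ e1
    rw [orn_int a b ha hab h]
    have e2 : ∫ r in a..b, r * h r = Real.pi ^ 2 / (16 * a * s ^ 2) *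
        (((b - a) / 2 - Real.sin (2 * (s * (b - a))) / (4 * s)) - 2 * (K / s) * (b - a)) := by
      have e3 : ∫ r in a..b, r * h r = ∫ r in a..b, Real.pi ^ 2 / (16 * a * s ^ 2) *
          (Real.sin (s * (r - a)) ^ 2 - 2 * (K / s)) := by
        refine intervalIntegral.integral_congr fun r hr => ?_
        rw [uIcc_of_le hab.le] at hr
        have hr0 : r ≠ 0 := (ha.trans_le hr.1).ne'
        simp only [hh]
        field_simp
      rw [e3, intervalIntegral.integral_const_mul, intervalIntegral.integral_sub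
        (Continuous.intervalIntegrable (by fun_prop) a b)
        (Continuous.intervalIntegrable (by fun_prop) a b), orn_sin a b s hs0,
        intervalIntegral.integral_const, smul_eq_mul]
      ring
    rw [e2, ← hL]
    have e4 : L / 4 ≤ L / 2 - Real.sin (2 * (s * L)) / (4 * s) - 2 * (K / s) * L := by
      have e5 : Real.sin (2 * (s * L)) / (4 * s) ≤ 1 / (4 * s) :=
        div_le_div_of_nonneg_right (Real.sin_le_one _) (by positivity)
      have e6 : 1 / (4 * s) + 2 * (K / s) * L ≤ L / 4 := by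
        have e7 : 1 / (4 * s) + 2 * (K / s) * L = (1 + 8 * K * L) / (4 * s) := by
          field_simp
          ring
        rw [e7, div_le_iff₀ (by positivity)]
        nlinarith
      linarith
    have e8 : c' / s ^ 2 = 2 * Real.pi * (Real.pi ^ 2 / (16 * a * s ^ 2) * (L / 4)) := by
      rw [hc']
      field_simp
    rw [e8]
    apply mul_le_mul_of_nonneg_left _ (by positivity)
    exact mul_le_mul_of_nonneg_left e4 (by positivity)
  have hI0 : 0 < I := lt_of_lt_of_le (by positivity) hlow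
  -- Jensen
  have hJ : (I / V) ^ p * I ≤ ∫ y, φ y ^ (2 * p + 2) ∂(mu (An a b)) := by
    have hm0 : 0 < I / V := by positivity
    have e1 : ∫ y, ((p + 1) * (I / V) ^ p * φ y ^ 2 - p * (I / V) ^ (p + 1)) ∂(mu (An a b)) ≤
        ∫ y, φ y ^ (2 * p + 2) ∂(mu (An a b)) := by
      refine integral_mono ((hI2.const_mul _).sub (integrable_const _)) hIp fun y => ?_
      have h := orn_tan p (I / V) (φ y ^ 2) hm0 (sq_nonneg _)
      rw [← pow_mul] at h
      exact h
    refine le_trans (le_of_eq ?_) e1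
    rw [integral_sub (hI2.const_mul _) (integrable_const _), integral_const_mul, integral_const,
      smul_eq_mul]
    have e2 : (mu (An a b)).real univ = V := by
      unfold mu
      rw [Measure.real, Measure.restrict_apply_univ]
    rw [e2, ← hI, pow_succ]
    have e3 : V * (p * ((I / V) ^ p * (I / V))) = p * (I / V) ^ p * I := by
      have e4 : V * (p * ((I / V) ^ p * (I / V))) = p * (I / V) ^ p * (V * (I / V)) := by ring
      rw [e4, mul_div_cancel₀ _ hV0.ne']
    rw [e3]
    ring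
  have hlt : (2 * (p : ℝ) + 1) * B ^ (2 * p) < N * (p * cp p * (c' / V) ^ p) := by
    rwa [div_lt_iff₀ hD] at hN
  have hm1 : (c' / V) ^ p / s ^ (2 * p) ≤ (I / V) ^ p := by
    rw [pow_mul, ← div_pow]
    apply pow_le_pow_left₀ (by positivity)
    rw [div_right_comm]
    exact div_le_div_of_nonneg_right hlow hV0.le
  calc (2 * (p : ℝ) + 1) * (B / s) ^ (2 * p) * I
      = ((2 * (p : ℝ) + 1) * B ^ (2 * p)) / s ^ (2 * p) * I := by
        rw [div_pow]; ring
    _ < (N * (p * cp p * (c' / V) ^ p)) / s ^ (2 * p) * I := by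
        apply mul_lt_mul_of_pos_right _ hI0
        exact div_lt_div_of_pos_right hlt (by positivity)
    _ = N * (p * cp p * ((c' / V) ^ p / s ^ (2 * p) * I)) := by ring
    _ ≤ N * (p * cp p * ((I / V) ^ p * I)) := by
        have : (0 : ℝ) ≤ N := Nat.cast_nonneg N
        gcongr
    _ ≤ N * (p * cp p * ∫ y, φ y ^ (2 * p + 2) ∂(mu (An a b))) := by
        have : (0 : ℝ) ≤ N := Nat.cast_nonneg N
        gcongr

end

end Pool.Agent.BEK.H8
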